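import Pool.Agent.Helper59.MB.Goals1

/-!
# Project MB (MP_49a1ce_an): packet DNS, cylinder functions are dense
-/

set_option autoImplicit false

open MeasureTheory Filter Topology Finset
open Pool.Agent.Helper59.MB

namespace Pool.Agent.Helper32.MB

/-- the same cylinder of level `L` -/
def RR (s : ℕ → ℕ) (L : ℕ) (x x' : Bas) : Prop :=
  ph (s L) x.2 = ph (s L) x'.2 ∧
    ∀ a < 2 * L + 1, ∀ j < L, x.1 ((a : ℤ) - L) j = x'.1 ((a : ℤ) - L) j

lemma RR_anti (hPHS : S_PHS) (s : ℕ → ℕ) (hs : StrictMono s) (L : ℕ) (x x' : Bas)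
    (h : RR s (L + 1) x x') : RR s L x x' := by
  constructor
  · rw [← hPHS.2.2.1 (s (L + 1)) (s L) x.2 (hs.monotone (Nat.le_succ L)),
      ← hPHS.2.2.1 (s (L + 1)) (s L) x'.2 (hs.monotone (Nat.le_succ L)), h.1]
  · intro a ha j hj
    have h1 := h.2 (a + 1) (by omega) j (by omega)
    have e : ((a + 1 : ℕ) : ℤ) - ((L + 1 : ℕ) : ℤ) = (a : ℤ) - L := by push_cast; ring
    rw [e] at h1
    exact h1

lemma RR_eq (hPHS : S_PHS) (s : ℕ → ℕ) (hs : StrictMono s) (x x' : Bas)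
    (h : ∀ L, RR s L x x') : x = x' := by
  refine Prod.ext ?_ ?_
  · funext n j
    have h1 := (h (n.natAbs + j + 1)).2 (n + (n.natAbs + j + 1)).toNat (by omega) j (by omega)
    have e : (((n + (n.natAbs + j + 1)).toNat : ℕ) : ℤ) - ((n.natAbs + j + 1 : ℕ) : ℤ) = n := by
      omega
    rw [e] at h1
    exact h1
  · apply hPHS.2.2.2.2.1
    intro k
    rw [← hPHS.2.2.1 (s k) k x.2 hs.le_apply, ← hPHS.2.2.1 (s k) k x'.2 hs.le_apply, (h k).1]

lemma RR_closed (hPHS : S_PHS) (s : ℕ → ℕ) (L : ℕ) :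
    IsClosed {p : Bas × Bas | RR s L p.1 p.2} := by
  have h1 : IsClosed {p : Bas × Bas | ph (s L) p.1.2 = ph (s L) p.2.2} :=
    isClosed_eq ((hPHS.2.2.2.1 (s L)).comp (continuous_snd.comp continuous_fst))
      ((hPHS.2.2.2.1 (s L)).comp (continuous_snd.comp continuous_snd))
  have h2 : IsClosed {p : Bas × Bas | ∀ a < 2 * L + 1, ∀ j < L,
      p.1.1 ((a : ℤ) - L) j = p.2.1 ((a : ℤ) - L) j} := by
    simp only [Set.setOf_forall]
    refine isClosed_iInter fun a => isClosed_iInter fun _ => isClosed_iInter fun j =>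
      isClosed_iInter fun _ => isClosed_eq ?_ ?_
    · fun_prop
    · fun_prop
  exact h1.inter h2

lemma unif (hPHS : S_PHS) (s : ℕ → ℕ) (hs : StrictMono s) (K : Set Bas) (hK : IsClosed K)
    (f : C(K, ℝ)) (ε : ℝ) (hε : 0 < ε) :
    ∃ L, ∀ x x' : K, RR s L x x' → |f x - f x'| < ε := by
  by_contra hcon
  push Not at hcon
  haveI : CompactSpace K := isCompact_iff_compactSpace.1 hK.isCompact
  have hcl : ∀ L, IsClosed {p : K × K | RR s L p.1 p.2 ∧ ε ≤ |f p.1 - f p.2|} := by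
    intro L
    have h1 : IsClosed {p : K × K | RR s L p.1 p.2} :=
      (RR_closed hPHS s L).preimage (f := fun p : K × K => ((p.1 : Bas), (p.2 : Bas)))
        (by fun_prop)
    have h2 : IsClosed {p : K × K | ε ≤ |f p.1 - f p.2|} :=
      isClosed_le continuous_const (by fun_prop)
    exact h1.inter h2
  obtain ⟨p, hp⟩ := IsCompact.nonempty_iInter_of_sequence_nonempty_isCompact_isClosed
    (fun L => {p : K × K | RR s L p.1 p.2 ∧ ε ≤ |f p.1 - f p.2|})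
    (fun L p hp => ⟨RR_anti hPHS s hs L _ _ hp.1, hp.2⟩)
    (fun L => by
      obtain ⟨x, x', h1, h2⟩ := hcon L
      exact ⟨(x, x'), h1, h2⟩)
    ((hcl 0).isCompact) hcl
  rw [Set.mem_iInter] at hp
  have h1 : (p.1 : Bas) = p.2 := RR_eq hPHS s hs _ _ fun L => (hp L).1
  have h2 : p.1 = p.2 := Subtype.ext h1
  have h3 := (hp 0).2
  rw [h2, sub_self, abs_zero] at h3
  linarith

lemma Fc_eq_one_iff (s : ℕ → ℕ) (c : Sp) (x : Bas) : Fc s c x = 1 ↔
    (ph (s c.1) x.2 = c.2.1 ∧ ∀ a < 2 * c.1 + 1, ∀ j < c.1,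
      (x.1 ((a : ℤ) - c.1) j = true ↔ (a, j) ∈ c.2.2)) := by
  unfold Fc
  split_ifs with h
  · exact ⟨fun _ => h, fun _ => rfl⟩
  · exact ⟨fun h0 => absurd h0 zero_ne_one, fun h1 => absurd h1 h⟩

lemma Fc_eq_zero (s : ℕ → ℕ) (c : Sp) (x : Bas) (h : Fc s c x ≠ 1) : Fc s c x = 0 := by
  unfold Fc at h ⊢
  split_ifs with h1
  · rw [if_pos h1] at h; exact absurd rfl h
  · rfl

lemma Fc_RR (s : ℕ → ℕ) (c : Sp) (x x' : Bas) (h : Fc s c x = 1) (h' : Fc s c x' = 1) :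
    RR s c.1 x x' := by
  rw [Fc_eq_one_iff] at h h'
  refine ⟨h.1.trans h'.1.symm, fun a ha j hj => ?_⟩
  rw [Bool.eq_iff_iff]
  exact (h.2 a ha j hj).trans (h'.2 a ha j hj).symm

open Classical in
/-- the cylinder of level `L` of a point -/
noncomputable def cOf (s : ℕ → ℕ) (L : ℕ) (x : Bas) : Sp :=
  (L, ph (s L) x.2, (range (2 * L + 1) ×ˢ range L).filter
    fun q => x.1 ((q.1 : ℤ) - L) q.2 = true)

lemma Fc_cOf (s : ℕ → ℕ) (L : ℕ) (x : Bas) : Fc s (cOf s L x) x = 1 := by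
  rw [Fc_eq_one_iff]
  refine ⟨rfl, fun a ha j hj => ?_⟩
  simp only [cOf] at ha hj ⊢
  rw [mem_filter, mem_product, mem_range, mem_range]
  exact ⟨fun h => ⟨⟨ha, hj⟩, h⟩, fun h => h.2⟩

/-- packet DNS -/
theorem t_DNS (hPHS : S_PHS) : S_DNS := by
  classical
  intro s hs K hK f ε hε
  obtain ⟨L, hL⟩ := unif hPHS s hs K hK f ε hε
  obtain ⟨J, hJ⟩ : ∃ J : Finset Sp, J = (range (2 ^ s L) ×ˢ
    (range (2 * L + 1) ×ˢ range L).powerset).image fun q => (L, q.1, q.2) := ⟨_, rfl⟩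
  obtain ⟨a, ha⟩ : ∃ a : Sp → ℝ, ∀ c, a c = if h : ∃ x : K, Fc s c x = 1 then f h.choose else 0 :=
    ⟨_, fun _ => rfl⟩
  refine ⟨J, a, fun x => ?_⟩
  have hmem : cOf s L x ∈ J := by
    rw [hJ, mem_image]
    refine ⟨(ph (s L) (x : Bas).2, (range (2 * L + 1) ×ˢ range L).filter
      fun q => (x : Bas).1 ((q.1 : ℤ) - L) q.2 = true), ?_, ?_⟩
    · rw [mem_product, mem_range, mem_powerset]
      exact ⟨hPHS.1 _ _, filter_subset _ _⟩
    · rfl
  have hz : ∀ c ∈ J, c ≠ cOf s L x → Fc s c x = 0 := by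
    intro c hc hne
    apply Fc_eq_zero
    intro h1
    apply hne
    rw [hJ, mem_image] at hc
    obtain ⟨⟨r, S⟩, hq, rfl⟩ := hc
    rw [mem_product, mem_range, mem_powerset] at hq
    rw [Fc_eq_one_iff] at h1
    simp only at h1 hq
    unfold cOf
    rw [Prod.mk.injEq, Prod.mk.injEq]
    refine ⟨rfl, h1.1.symm, ?_⟩
    ext ⟨b, j⟩
    rw [mem_filter, mem_product, mem_range, mem_range]
    constructor
    · intro hb
      have h2 := hq.2 hb
      rw [mem_product, mem_range, mem_range] at h2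
      exact ⟨h2, (h1.2 b h2.1 j h2.2).2 hb⟩
    · intro hb
      exact (h1.2 b hb.1.1 j hb.1.2).1 hb.2
  rw [Finset.sum_eq_single (cOf s L x) (fun c hc hne => by rw [hz c hc hne, mul_zero])
    (fun h => absurd hmem h), Fc_cOf, mul_one]
  have hex : ∃ y : K, Fc s (cOf s L x) y = 1 := ⟨x, Fc_cOf s L x⟩
  rw [ha, dif_pos hex]
  exact (hL x hex.choose (Fc_RR s (cOf s L x) _ _ (Fc_cOf s L x) hex.choose_spec)).le

end Pool.Agent.Helper32.MB
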