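import Pool.Agent.Helper59.MB.Goals1
import Pool.Agent.Helper56.Newman

/-!
# Project MB (MP_49a1ce_an): packet NTB, a Tauberian theorem for bounded coefficients
-/

set_option autoImplicit false

open MeasureTheory Filter Topology Finset

namespace Pool.Agent.Helper32.MB

/-- the averages `(1/x) ∑_{n ≤ x} a n` -/
noncomputable def fa (a : ℕ → ℝ) (x : ℝ) : ℝ := (∑ n ∈ Icc 1 ⌊x⌋₊, a n) / x

lemma meas_fa (a : ℕ → ℝ) : Measurable (fa a) := by
  have h1 : Measurable (fun x : ℝ => ∑ n ∈ Icc 1 ⌊x⌋₊, a n) :=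
    (measurable_from_top (f := fun N : ℕ => ∑ n ∈ Icc 1 N, a n)).comp Nat.measurable_floor
  exact h1.div measurable_id

lemma bd_fa (a : ℕ → ℝ) (ha : ∀ n, |a n| ≤ 1) (x : ℝ) (hx : 1 ≤ x) : |fa a x| ≤ 1 := by
  have hx0 : 0 < x := by linarith
  unfold fa
  rw [abs_div, abs_of_pos hx0, div_le_one hx0]
  calc |∑ n ∈ Icc 1 ⌊x⌋₊, a n| ≤ ∑ n ∈ Icc 1 ⌊x⌋₊, |a n| := abs_sum_le_sum_abs _ _
    _ ≤ ∑ n ∈ Icc 1 ⌊x⌋₊, (1:ℝ) := sum_le_sum fun n _ => ha n
    _ = (⌊x⌋₊ : ℝ) := by simp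
    _ ≤ x := Nat.floor_le hx0.le

lemma ii_fa (a : ℕ → ℝ) (ha : ∀ n, |a n| ≤ 1) (X Y : ℝ) (hX : 1 ≤ X) (hY : 1 ≤ Y) :
    IntervalIntegrable (fun x => fa a x / x) volume X Y := by
  rw [intervalIntegrable_iff]
  refine Measure.integrableOn_of_bounded (M := 1) ?_ ?_ ?_
  · rw [Set.uIoc]; exact measure_Ioc_lt_top.ne
  · exact ((meas_fa a).div measurable_id).aestronglyMeasurable
  · refine (ae_restrict_mem measurableSet_uIoc).mono fun x hx => ?_
    have hx1 : 1 ≤ x := by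
      have := hx.1
      have h2 : 1 ≤ min X Y := le_min hX hY
      linarith
    rw [Real.norm_eq_abs, abs_div, abs_of_pos (show (0:ℝ) < x by linarith)]
    rw [div_le_one (by linarith)]
    exact (bd_fa a ha x hx1).trans hx1

lemma sum_ge (a : ℕ → ℝ) (ha : ∀ n, |a n| ≤ 1) (N M : ℕ) (h : N ≤ M) :
    (∑ n ∈ Icc 1 N, a n) - (M - N) ≤ ∑ n ∈ Icc 1 M, a n := by
  induction M, h using Nat.le_induction with
  | base => simp
  | succ M hM ih =>
    rw [Finset.sum_Icc_succ_top (by omega)]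
    have h1 := (abs_le.1 (ha (M + 1))).1
    push_cast
    linarith

lemma window (a : ℕ → ℝ) (ha : ∀ n, |a n| ≤ 1) (N : ℕ) (hN : 1 ≤ N) (ε : ℝ) (hε : 0 < ε)
    (hε1 : ε ≤ 1) (h : ε * N ≤ ∑ n ∈ Icc 1 N, a n) :
    ε ^ 2 / 10 ≤ ∫ x in (N : ℝ)..((1 + ε / 4) * N), fa a x / x := by
  have hN1 : (1:ℝ) ≤ N := by exact_mod_cast hN
  have hN0 : (0:ℝ) < N := by linarith
  have hY : (N:ℝ) ≤ (1 + ε / 4) * N := by nlinarith
  have hlow : ∀ x ∈ Set.Icc (N:ℝ) ((1 + ε / 4) * N), 2 * ε / (5 * N) ≤ fa a x / x := by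
    intro x hx
    have hx0 : 0 < x := by linarith [hx.1]
    have hfl : N ≤ ⌊x⌋₊ := Nat.le_floor hx.1
    have h1 := sum_ge a ha N ⌊x⌋₊ hfl
    have h2 : (⌊x⌋₊ : ℝ) ≤ x := Nat.floor_le hx0.le
    have h3 : 3 * ε / 4 * N ≤ ∑ n ∈ Icc 1 ⌊x⌋₊, a n := by nlinarith [hx.2]
    unfold fa
    rw [div_div, div_le_div_iff₀ (by positivity) (by positivity)]
    have h4 : x ≤ 5 / 4 * N := by nlinarith [hx.2]
    have h5 : x * x ≤ (5 / 4 * N) * (5 / 4 * N) := mul_le_mul h4 h4 hx0.le (by positivity)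
    calc 2 * ε * (x * x) ≤ 2 * ε * ((5 / 4 * N) * (5 / 4 * N)) :=
          mul_le_mul_of_nonneg_left h5 (by positivity)
      _ ≤ (3 * ε / 4 * N) * (5 * N) := by nlinarith [mul_pos hε (mul_pos hN0 hN0)]
      _ ≤ _ := mul_le_mul_of_nonneg_right h3 (by positivity)
  have hc : ∫ x in (N : ℝ)..((1 + ε / 4) * N), (2 * ε / (5 * N) : ℝ) = ε ^ 2 / 10 := by
    rw [intervalIntegral.integral_const, smul_eq_mul]
    field_simp
    ring
  rw [← hc]
  exact intervalIntegral.integral_mono_on hY intervalIntegrable_const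
    (ii_fa a ha _ _ hN1 (hN1.trans hY)) hlow

/-- packet NTB -/
theorem t_NTB : Pool.Agent.Helper59.MB.S_NTB := by
  intro a ha g hg hgi ε hε
  have key := Helper56.newman (f := fa a) (g := g) (B := 1) (meas_fa a) (bd_fa a ha) hg hgi
  obtain ⟨e, he⟩ : ∃ e, e = min ε 1 := ⟨_, rfl⟩
  have he0 : 0 < e := by rw [he]; positivity
  have he1 : e ≤ 1 := by rw [he]; exact min_le_right _ _
  have hee : e ≤ ε := by rw [he]; exact min_le_left _ _
  have hc : (0:ℝ) < e ^ 2 / 20 := by positivity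
  rw [Metric.tendsto_atTop] at key
  obtain ⟨X₀, hX₀⟩ := key (e ^ 2 / 20) hc
  refine ⟨max 1 ⌈X₀⌉₊, fun N hN => ?_⟩
  have hN1 : 1 ≤ N := (le_max_left _ _).trans hN
  have hNX : X₀ ≤ N := (Nat.le_ceil X₀).trans (by exact_mod_cast (le_max_right _ _).trans hN)
  have hN1' : (1:ℝ) ≤ N := by exact_mod_cast hN1
  have hY : (N:ℝ) ≤ (1 + e / 4) * N := by nlinarith
  have hJ : ∀ X : ℝ, (∫ x in (1:ℝ)..X, ((fa a x : ℂ) / x)) =
      ((∫ x in (1:ℝ)..X, fa a x / x : ℝ) : ℂ) := by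
    intro X
    rw [← intervalIntegral.integral_ofReal]
    congr 1
    funext x
    push_cast
    rfl
  have h1 := hX₀ N hNX
  have h2 := hX₀ ((1 + e / 4) * N) (hNX.trans hY)
  have h3 : dist (∫ x in (1:ℝ)..((1 + e / 4) * N), ((fa a x : ℂ) / x))
      (∫ x in (1:ℝ)..N, ((fa a x : ℂ) / x)) < e ^ 2 / 10 := by
    calc _ ≤ _ := dist_triangle_right _ _ (g 0)
      _ < e ^ 2 / 20 + e ^ 2 / 20 := add_lt_add h2 h1
      _ = e ^ 2 / 10 := by ring
  rw [hJ, hJ, dist_eq_norm, ← Complex.ofReal_sub, Complex.norm_real, Real.norm_eq_abs,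
    intervalIntegral.integral_interval_sub_left (ii_fa a ha _ _ le_rfl (hN1'.trans hY))
      (ii_fa a ha _ _ le_rfl hN1')] at h3
  rw [abs_lt] at h3
  have hle : |∑ n ∈ Icc 1 N, a n| ≤ e * N := by
    rw [abs_le]
    constructor
    · by_contra hcon
      push Not at hcon
      have h4 := window (fun n => - a n) (fun n => by rw [abs_neg]; exact ha n) N hN1 e he0 he1
        (by rw [Finset.sum_neg_distrib]; linarith)
      have h5 : ∀ x, fa (fun n => - a n) x / x = - (fa a x / x) := by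
        intro x
        unfold fa
        rw [Finset.sum_neg_distrib]
        ring
      simp only [h5] at h4
      rw [intervalIntegral.integral_neg] at h4
      linarith [h3.1]
    · by_contra hcon
      push Not at hcon
      have h4 := window a ha N hN1 e he0 he1 hcon.le
      linarith [h3.2]
  exact hle.trans (mul_le_mul_of_nonneg_right hee (by linarith))

end Pool.Agent.Helper32.MB
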